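import Pool.Agent.TH57.TT2.DF3

set_option autoImplicit false

/-! One-sided inverses of matrices over group algebras of arbitrary groups in which all rows, or all
rows but one in each block, have at most two nonzero coefficients. -/

namespace Pool.Agent.Results.MP_03ceb7_al.ShortRows

open TH57.TT2

/-- Let `R` be a commutative ring, `G` any group and `A`, `B` square matrices over `RG` with
`AB = 1`.
(1) If in every direct summand of `A` with as many rows as columns (rows `S` and columns `T` such
that a nonzero entry is in a row of `S` iff it is in a column of `T`, `|S| = |T|`) there are at most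
`2|S|` nonzero coefficients, in particular if every row, or every column, of `A` has at most two,
then `BA = 1`.
(2) If `RG` is directly finite and the rows and columns of `A` can be coloured so that nonzero
entries are in a row and a column of the same colour, and that of any two rows of the same colour
one has at most two nonzero coefficients, then `BA = 1`. -/
theorem result (R : Type) [CommRing R] (G : Type) [Group G] (n : ℕ)
    (A B : Matrix (Fin n) (Fin n) (MonoidAlgebra R G)) (hAB : A * B = 1) :
    ((∀ S T : Finset (Fin n), (∀ i j, A i j ≠ 0 → (i ∈ S ↔ j ∈ T)) → S.card = T.card →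
        ∑ i ∈ S, ∑ j ∈ T, (A i j).coeff.support.card ≤ 2 * S.card) → B * A = 1) ∧
    ((∀ x y : MonoidAlgebra R G, x * y = 1 → y * x = 1) →
      ∀ c d : Fin n → ℕ, (∀ i j, A i j ≠ 0 → c i = d j) →
      (∀ i i', i ≠ i' → c i = c i' → ∑ j, (A i j).coeff.support.card ≤ 2 ∨
        ∑ j, (A i' j).coeff.support.card ≤ 2) → B * A = 1) := by
  rcases subsingleton_or_nontrivial R with hR | hR
  · have h0 : ∀ x : MonoidAlgebra R G, x = 0 := fun x => by
      ext g
      exact Subsingleton.elim _ _
    have h1 : B * A = 1 := by
      ext1 i j
      rw [h0 ((B * A) i j), h0 ((1 : Matrix (Fin n) (Fin n) (MonoidAlgebra R G)) i j)]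
    exact ⟨fun _ => h1, fun _ _ _ _ _ => h1⟩
  · exact ⟨fun h => DF.square A B hAB h, fun hG c d hcd h => DF.blocks A B hAB c d hcd h hG⟩

end Pool.Agent.Results.MP_03ceb7_al.ShortRows
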